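import Pool.Agent.helper13.BN.Defs

/-! # MP_94a57f_an, module P2: density of the modes in the axial `L²` functions -/

set_option autoImplicit false
open MeasureTheory Filter Topology Set Metric
open scoped ContDiff Gradient RealInnerProductSpace ENNReal

noncomputable section
namespace Pool.Agent.helper13.BN
variable {N : ℕ}

/-- finite sums of modes, as functions of `(r, s)` -/
def ModeSum (N : ℕ) (f : ℝ → ℝ → ℝ) : Prop :=
  ∃ (m : ℕ) (g : ℕ → ℝ → ℝ), (∀ j, ContDiff ℝ ∞ (g j)) ∧ (∀ j, m ≤ j → g j = 0) ∧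
    ∀ r s : ℝ, 0 < r → f r s
      = ∑ j ∈ Finset.range m, r ^ (-cc N) * g j (-Real.log r) * Pz N j s

theorem ModeSum.zero (N : ℕ) : ModeSum N (fun _ _ => 0) :=
  ⟨0, fun _ => 0, fun _ => contDiff_const, fun _ _ => rfl, fun r s _ => by simp⟩

theorem modeSum_extend {m m' : ℕ} (hm : m ≤ m') {g : ℕ → ℝ → ℝ} (h0 : ∀ j, m ≤ j → g j = 0)
    (r s : ℝ) : ∑ j ∈ Finset.range m, r ^ (-cc N) * g j (-Real.log r) * Pz N j s
      = ∑ j ∈ Finset.range m', r ^ (-cc N) * g j (-Real.log r) * Pz N j s := by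
  apply Finset.sum_subset (Finset.range_subset_range.2 hm)
  intro j _ hj
  rw [h0 j (by simpa using hj)]
  simp

theorem ModeSum.add {f f' : ℝ → ℝ → ℝ} (hf : ModeSum N f) (hf' : ModeSum N f') :
    ModeSum N (fun r s => f r s + f' r s) := by
  obtain ⟨m, g, hg, h0, h⟩ := hf
  obtain ⟨m', g', hg', h0', h'⟩ := hf'
  refine ⟨max m m', fun j => g j + g' j, fun j => (hg j).add (hg' j), ?_, ?_⟩
  · intro j hj
    show g j + g' j = 0
    rw [h0 j (le_trans (le_max_left _ _) hj), h0' j (le_trans (le_max_right _ _) hj), add_zero]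
  · intro r s hr
    show f r s + f' r s = _
    rw [h r s hr, h' r s hr, modeSum_extend (le_max_left m m') h0,
      modeSum_extend (le_max_right m m') h0', ← Finset.sum_add_distrib]
    apply Finset.sum_congr rfl
    intro j _
    simp only [Pi.add_apply]
    ring

theorem ModeSum.congr {f f' : ℝ → ℝ → ℝ} (hf : ModeSum N f)
    (h : ∀ r s : ℝ, 0 < r → f' r s = f r s) : ModeSum N f' := by
  obtain ⟨m, g, hg, h0, h1⟩ := hf
  exact ⟨m, g, hg, h0, fun r s hr => by rw [h r s hr, h1 r s hr]⟩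

theorem ModeSum.single (j : ℕ) {g : ℝ → ℝ} (hg : ContDiff ℝ ∞ g) :
    ModeSum N (fun r s => r ^ (-cc N) * g (-Real.log r) * Pz N j s) := by
  refine ⟨j + 1, fun i => if i = j then g else 0, ?_, ?_, ?_⟩
  · intro i
    by_cases hi : i = j
    · simpa [hi] using hg
    · simp only [hi, if_false]
      exact contDiff_const
  · intro i hi
    have : i ≠ j := by omega
    simp [this]
  · intro r s _
    rw [Finset.sum_eq_single j]
    · simp
    · intro i _ hi
      simp [hi]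
    · intro hj
      simp at hj

theorem ModeSum.sum {m : ℕ} {f : ℕ → ℝ → ℝ → ℝ} (hf : ∀ i, ModeSum N (f i)) :
    ModeSum N (fun r s => ∑ i ∈ Finset.range m, f i r s) := by
  induction m with
  | zero => simpa using ModeSum.zero N
  | succ m ih =>
    simp only [Finset.sum_range_succ]
    exact ih.add (hf m)

theorem ModeSum.smul {f : ℝ → ℝ → ℝ} (hf : ModeSum N f) (a : ℝ) :
    ModeSum N (fun r s => a * f r s) := by
  obtain ⟨m, g, hg, h0, h⟩ := hf
  refine ⟨m, fun j t => a * g j t, fun j => contDiff_const.mul (hg j), ?_, ?_⟩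
  · intro j hj
    funext t
    simp [h0 j hj]
  · intro r s hr
    show a * f r s = _
    rw [h r s hr, Finset.mul_sum]
    apply Finset.sum_congr rfl
    intro j _
    ring

theorem ModeSum.mul_r {f : ℝ → ℝ → ℝ} (hf : ModeSum N f) :
    ModeSum N (fun r s => r * f r s) := by
  obtain ⟨m, g, hg, h0, h⟩ := hf
  refine ⟨m, fun j t => Real.exp (-t) * g j t,
    fun j => (Real.contDiff_exp.comp contDiff_neg).mul (hg j), ?_, ?_⟩
  · intro j hj
    funext t
    simp [h0 j hj]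
  · intro r s hr
    show r * f r s = _
    rw [h r s hr, Finset.mul_sum]
    apply Finset.sum_congr rfl
    intro j _
    simp only [neg_neg, Real.exp_log hr]
    ring

theorem Pz_rec' (N j : ℕ) (s : ℝ) (hN : 3 ≤ N) :
    s * Pz N (j + 1) s = ((j : ℝ) + 1 + N - 2) / (2 * ((j : ℝ) + 1) + N - 2) * Pz N (j + 2) s
      + ((j : ℝ) + 1) / (2 * ((j : ℝ) + 1) + N - 2) * Pz N j s := by
  have hN' : (3 : ℝ) ≤ N := by exact_mod_cast hN
  have hj : (0 : ℝ) ≤ j := Nat.cast_nonneg j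
  have h1 : ((j : ℝ) + 1 + N - 2) ≠ 0 := by
    have : 0 < (j : ℝ) + 1 + N - 2 := by linarith
    exact this.ne'
  have h2 : (2 * ((j : ℝ) + 1) + N - 2) ≠ 0 := by
    have : 0 < 2 * ((j : ℝ) + 1) + N - 2 := by linarith
    exact this.ne'
  simp only [Pz, PZ, Polynomial.eval_mul, Polynomial.eval_C, Polynomial.eval_sub,
    Polynomial.eval_X]
  generalize Polynomial.eval s (PZ N (j + 1)) = P1
  generalize Polynomial.eval s (PZ N j) = P0
  generalize hA : ((j : ℝ) + 1 + N - 2) = A at *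
  generalize hB : (2 * ((j : ℝ) + 1) + N - 2) = B at *
  field_simp
  ring

theorem ModeSum.mul_s_single (hN : 3 ≤ N) (j : ℕ) {g : ℝ → ℝ} (hg : ContDiff ℝ ∞ g) :
    ModeSum N (fun r s => s * (r ^ (-cc N) * g (-Real.log r) * Pz N j s)) := by
  rcases j with _ | j
  · refine (ModeSum.single (N := N) 1 hg).congr ?_
    intro r s _
    simp only [Pz, PZ, Polynomial.eval_one, Polynomial.eval_X]
    ring
  · refine (((ModeSum.single (N := N) (j + 2) hg).smul
      (((j : ℝ) + 1 + N - 2) / (2 * ((j : ℝ) + 1) + N - 2))).add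
      ((ModeSum.single (N := N) j hg).smul
        (((j : ℝ) + 1) / (2 * ((j : ℝ) + 1) + N - 2)))).congr ?_
    intro r s _
    have := Pz_rec' N j s hN
    linear_combination (r ^ (-cc N) * g (-Real.log r)) * this

theorem ModeSum.mul_s (hN : 3 ≤ N) {f : ℝ → ℝ → ℝ} (hf : ModeSum N f) :
    ModeSum N (fun r s => s * f r s) := by
  obtain ⟨m, g, hg, h0, h⟩ := hf
  refine (ModeSum.sum (m := m) (fun j => ModeSum.mul_s_single hN j (hg j))).congr ?_
  intro r s hr
  rw [h r s hr, Finset.mul_sum]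

theorem ModeSum.const (N : ℕ) (a : ℝ) : ModeSum N (fun _ _ => a) := by
  have hg : ContDiff ℝ ∞ (fun t : ℝ => a * Real.exp (-(cc N * t))) := by fun_prop
  refine (ModeSum.single (N := N) 0 hg).congr ?_
  intro r s hr
  have h1 : Real.exp (-(cc N * -Real.log r)) = r ^ cc N := by
    rw [Real.rpow_def_of_pos hr]
    congr 1
    ring
  have h2 : r ^ (-cc N) * r ^ cc N = 1 := by
    rw [← Real.rpow_add hr]
    simp
  simp only [Pz, PZ, Polynomial.eval_one, h1]
  linear_combination -a * h2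

/-- the polynomial functions of `(r, s)` -/
def polyAlg : Subalgebra ℝ C(ℝ × ℝ, ℝ) :=
  (MvPolynomial.aeval (R := ℝ)
    (![⟨Prod.fst, continuous_fst⟩, ⟨Prod.snd, continuous_snd⟩] : Fin 2 → C(ℝ × ℝ, ℝ))).range

theorem polyAlg_sep : polyAlg.SeparatesPoints := by
  intro z w hzw
  have h0 : (⟨Prod.fst, continuous_fst⟩ : C(ℝ × ℝ, ℝ)) ∈ polyAlg :=
    ⟨MvPolynomial.X 0, by simp⟩
  have h1 : (⟨Prod.snd, continuous_snd⟩ : C(ℝ × ℝ, ℝ)) ∈ polyAlg :=
    ⟨MvPolynomial.X 1, by simp⟩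
  by_cases hz : z.1 = w.1
  · refine ⟨_, ⟨_, h1, rfl⟩, ?_⟩
    intro h2
    exact hzw (Prod.ext hz h2)
  · exact ⟨_, ⟨_, h0, rfl⟩, hz⟩

theorem polyAlg_modeSum (hN : 3 ≤ N) {F : C(ℝ × ℝ, ℝ)} (hF : F ∈ polyAlg) :
    ModeSum N (fun r s => F (r, s)) := by
  obtain ⟨p, rfl⟩ := hF
  induction p using MvPolynomial.induction_on with
  | C a =>
    refine (ModeSum.const N a).congr ?_
    intro r s _
    simp
  | add p q hp hq =>
    refine (hp.add hq).congr ?_
    intro r s _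
    simp
  | mul_X p i hp =>
    fin_cases i
    · refine hp.mul_r.congr ?_
      intro r s _
      simp
      ring
    · refine (hp.mul_s hN).congr ?_
      intro r s _
      simp
      ring

/-- uniform approximation of continuous functions by sums of modes on rectangles -/
theorem modeSum_near (hN : 3 ≤ N) {F : ℝ × ℝ → ℝ} (hF : Continuous F) (ρ : ℝ) {ε : ℝ}
    (hε : 0 < ε) : ∃ f : ℝ → ℝ → ℝ, ModeSum N f ∧
      ∀ r ∈ Icc ρ 1, ∀ s ∈ Icc (-1 : ℝ) 1, |F (r, s) - f r s| ≤ ε := by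
  obtain ⟨G, hG, h⟩ :=
    ContinuousMap.exists_mem_subalgebra_near_continuous_of_isCompact_of_separatesPoints
      polyAlg_sep ⟨F, hF⟩ (K := Icc ρ 1 ×ˢ Icc (-1 : ℝ) 1) (isCompact_Icc.prod isCompact_Icc) hε
  refine ⟨fun r s => G (r, s), polyAlg_modeSum hN hG, ?_⟩
  intro r hr s hs
  have := h (r, s) ⟨hr, hs⟩
  rw [Real.norm_eq_abs] at this
  rw [abs_sub_comm]
  exact this.le

theorem isOpen_ann' (N : ℕ) (ρ : ℝ) : IsOpen (ann N ρ) :=
  (isOpen_lt continuous_const continuous_norm).inter (isOpen_lt continuous_norm continuous_const)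

theorem vol_ann_lt_top (N : ℕ) (ρ : ℝ) : volume (ann N ρ) < ⊤ := by
  refine lt_of_le_of_lt (measure_mono ?_) (measure_ball_lt_top (x := (0 : E N)) (r := 1))
  intro x hx
  simpa using hx.2

theorem cyl_continuousOn {ρ : ℝ} (hρ : 0 < ρ) (e : E N) {g : ℝ → ℝ} (hg : Continuous g)
    (j : ℕ) : ContinuousOn (cyl N e g (Pz N j)) {x : E N | ρ ≤ ‖x‖ ∧ ‖x‖ ≤ 1} := by
  have h0 : ∀ x ∈ {x : E N | ρ ≤ ‖x‖ ∧ ‖x‖ ≤ 1}, ‖x‖ ≠ 0 := fun x hx =>
    (lt_of_lt_of_le hρ hx.1).ne'
  have hP : Continuous (Pz N j) := (PZ N j).continuous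
  unfold cyl
  refine ContinuousOn.mul (ContinuousOn.mul ?_ ?_) ?_
  · exact continuous_norm.continuousOn.rpow_const fun x hx => Or.inl (h0 x hx)
  · exact hg.comp_continuousOn (ContinuousOn.log continuous_norm.continuousOn h0).neg
  · refine hP.comp_continuousOn (ContinuousOn.div ?_ continuous_norm.continuousOn h0)
    fun_prop

theorem cyl_memLp {ρ : ℝ} (hρ : 0 < ρ) (e : E N) {g : ℝ → ℝ} (hg : Continuous g)
    (j : ℕ) (p : ℝ≥0∞) : MemLp (cyl N e g (Pz N j)) p (volume.restrict (ann N ρ)) := by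
  have hc := cyl_continuousOn hρ e hg j
  have hK : IsCompact {x : E N | ρ ≤ ‖x‖ ∧ ‖x‖ ≤ 1} := by
    refine (isCompact_closedBall (0 : E N) 1).of_isClosed_subset ?_ ?_
    · exact (isClosed_le continuous_const continuous_norm).inter
        (isClosed_le continuous_norm continuous_const)
    · intro x hx
      simpa using hx.2
  obtain ⟨C, hC⟩ := hK.exists_bound_of_continuousOn hc
  have hsub : ann N ρ ⊆ {x : E N | ρ ≤ ‖x‖ ∧ ‖x‖ ≤ 1} := fun x hx => ⟨hx.1.le, hx.2.le⟩
  have : IsFiniteMeasure (volume.restrict (ann N ρ)) :=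
    ⟨by rw [Measure.restrict_apply_univ]; exact vol_ann_lt_top N ρ⟩
  refine MemLp.of_bound ((hc.mono hsub).aestronglyMeasurable (isOpen_ann' N ρ).measurableSet) C ?_
  filter_upwards [ae_restrict_mem (isOpen_ann' N ρ).measurableSet] with x hx
  exact hC x (hsub hx)

theorem modes_approx (hN : 3 ≤ N) {ρ : ℝ} (hρ : 0 < ρ) (hρ1 : ρ < 1) {e : E N} (he : ‖e‖ = 1)
    {h : E N → ℝ} (hA : Axial e h) (h2 : Mq 2 (ann N ρ) h) {ε : ℝ} (hε : 0 < ε) :
    ∃ (m : ℕ) (g : ℕ → ℝ → ℝ), (∀ j, ContDiff ℝ ∞ (g j)) ∧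
      nq 2 (ann N ρ) (fun x => h x - ∑ j ∈ Finset.range m, cyl N e (g j) (Pz N j) x) ≤ ε := by
  obtain ⟨k, hk, hkh⟩ := hA
  set μ : Measure (E N) := volume.restrict (ann N ρ) with hμ
  have : IsFiniteMeasure μ :=
    ⟨by rw [hμ, Measure.restrict_apply_univ]; exact vol_ann_lt_top N ρ⟩
  set Φ : E N → ℝ × ℝ := fun x => (‖x‖, ⟪x, e⟫ / ‖x‖) with hΦ
  have hΦm : Measurable Φ := by
    refine measurable_norm.prodMk ?_
    exact (Measurable.div (by fun_prop) measurable_norm)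
  set k' : ℝ × ℝ → ℝ := fun z => k (z.1, z.1 * z.2) with hk'
  have hk'm : Measurable k' := hk.comp (measurable_fst.prodMk (measurable_fst.mul measurable_snd))
  have hmem : ∀ᵐ x ∂μ, x ∈ ann N ρ := ae_restrict_mem (isOpen_ann' N ρ).measurableSet
  have hhk : h =ᵐ[μ] k' ∘ Φ := by
    filter_upwards [hmem, ae_restrict_of_ae hkh] with x hx hxk
    have hx0 : ‖x‖ ≠ 0 := (lt_trans hρ hx.1).ne'
    rw [hxk]
    simp only [Function.comp_apply, hk', hΦ]
    congr 2
    field_simp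
  have h2' : MemLp (k' ∘ Φ) (ENNReal.ofReal 2) μ := (memLp_congr_ae hhk).1 h2
  set ν : Measure (ℝ × ℝ) := μ.map Φ with hν
  have : IsFiniteMeasure ν := by rw [hν]; infer_instance
  have h2ν : MemLp k' (ENNReal.ofReal 2) ν :=
    (memLp_map_measure_iff hk'm.aestronglyMeasurable hΦm.aemeasurable).2 h2'
  have hε2 : ENNReal.ofReal (ε / 2) ≠ 0 := by
    simpa using (half_pos hε)
  obtain ⟨F, hF, hFm⟩ := h2ν.exists_boundedContinuous_eLpNorm_sub_le ENNReal.ofReal_ne_top hε2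
  -- uniform approximation
  set V : ℝ := (μ univ).toReal ^ ((2 : ℝ)⁻¹) with hV
  have hV0 : 0 ≤ V := by positivity
  obtain ⟨f, ⟨m, g, hg, -, hfg⟩, hf⟩ := modeSum_near hN F.continuous ρ
    (ε := ε / (2 * (V + 1))) (by positivity)
  refine ⟨m, g, hg, ?_⟩
  set S : E N → ℝ := fun x => ∑ j ∈ Finset.range m, cyl N e (g j) (Pz N j) x with hS
  have hSmem : MemLp S (ENNReal.ofReal 2) μ :=
    memLp_finsetSum _ fun j _ => cyl_memLp hρ e (hg j).continuous j _
  have hS' : ∀ x ∈ ann N ρ, S x = f ‖x‖ (⟪x, e⟫ / ‖x‖) := by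
    intro x hx
    rw [hfg _ _ (lt_trans hρ hx.1)]
    rfl
  have hsplit : (fun x => h x - S x) =ᵐ[μ] ((k' - ⇑F) ∘ Φ) + fun x => F (Φ x) - S x := by
    filter_upwards [hhk] with x hx
    simp only [Pi.add_apply, Function.comp_apply, Pi.sub_apply] at hx ⊢
    rw [hx]
    ring
  have hFc : Continuous F := F.continuous
  have hm1 : AEStronglyMeasurable ((k' - ⇑F) ∘ Φ) μ :=
    ((hk'm.sub hFc.measurable).comp hΦm).aestronglyMeasurable
  have hm2 : AEStronglyMeasurable (fun x => F (Φ x) - S x) μ :=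
    (hFc.measurable.comp hΦm).aestronglyMeasurable.sub hSmem.aestronglyMeasurable
  have hone : (1 : ℝ≥0∞) ≤ ENNReal.ofReal 2 := by
    rw [ENNReal.one_le_ofReal]; norm_num
  have hb1 : eLpNorm ((k' - ⇑F) ∘ Φ) (ENNReal.ofReal 2) μ ≤ ENNReal.ofReal (ε / 2) := by
    rw [← eLpNorm_map_measure (by rw [← hν]; exact (hk'm.sub hFc.measurable).aestronglyMeasurable)
      hΦm.aemeasurable]
    exact hF
  have hb2 : eLpNorm (fun x => F (Φ x) - S x) (ENNReal.ofReal 2) μ ≤ ENNReal.ofReal (ε / 2) := by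
    have hbd : ∀ᵐ x ∂μ, ‖F (Φ x) - S x‖ ≤ ε / (2 * (V + 1)) := by
      filter_upwards [hmem] with x hx
      rw [hS' x hx, Real.norm_eq_abs]
      refine hf _ ⟨hx.1.le, hx.2.le⟩ _ ?_
      have hx0 : 0 < ‖x‖ := lt_trans hρ hx.1
      have h3 : |⟪x, e⟫| ≤ ‖x‖ := by
        have := abs_real_inner_le_norm x e
        rwa [he, mul_one] at this
      have h4 : |⟪x, e⟫ / ‖x‖| ≤ 1 := by
        rw [abs_div, abs_of_pos hx0]
        exact (div_le_one hx0).2 h3
      exact abs_le.1 h4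
    refine (eLpNorm_le_of_ae_bound hbd).trans ?_
    have h5 : μ univ ^ (ENNReal.ofReal 2).toReal⁻¹ = ENNReal.ofReal V := by
      rw [ENNReal.toReal_ofReal (by norm_num : (0 : ℝ) ≤ 2), hV,
        ← ENNReal.ofReal_rpow_of_nonneg ENNReal.toReal_nonneg (by norm_num),
        ENNReal.ofReal_toReal (measure_ne_top μ univ)]
    rw [h5, ← ENNReal.ofReal_mul hV0]
    apply ENNReal.ofReal_le_ofReal
    have : V * (ε / (2 * (V + 1))) = (V / (V + 1)) * (ε / 2) := by
      field_simp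
    rw [this]
    have h6 : V / (V + 1) ≤ 1 := (div_le_one (by linarith)).2 (by linarith)
    nlinarith [half_pos hε]
  unfold nq
  rw [eLpNorm_congr_ae hsplit]
  have h7 := eLpNorm_add_le hm1 hm2 hone
  have h8 : eLpNorm (((k' - ⇑F) ∘ Φ) + fun x => F (Φ x) - S x) (ENNReal.ofReal 2) μ
      ≤ ENNReal.ofReal ε := by
    refine h7.trans ((add_le_add hb1 hb2).trans ?_)
    rw [← ENNReal.ofReal_add (by linarith) (by linarith)]
    exact ENNReal.ofReal_le_ofReal (by linarith)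
  exact ENNReal.toReal_le_of_le_ofReal hε.le h8

theorem modes_dense (hN : 3 ≤ N) {ρ : ℝ} (hρ : 0 < ρ) (hρ1 : ρ < 1) {e : E N} (he : ‖e‖ = 1)
    {h : E N → ℝ} (hA : Axial e h) (h2 : Mq 2 (ann N ρ) h)
    (horth : ∀ (j : ℕ) (g : ℝ → ℝ), ContDiff ℝ ∞ g →
      ∫ x in ann N ρ, h x * cyl N e g (Pz N j) x = 0) :
    ∀ᵐ x, x ∈ ann N ρ → h x = 0 := by
  set μ : Measure (E N) := volume.restrict (ann N ρ) with hμ
  have h2r : MemLp h 2 μ := by
    have : ENNReal.ofReal 2 = 2 := by simp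
    have h3 : MemLp h (ENNReal.ofReal 2) μ := h2
    rwa [this] at h3
  have hsq : Integrable (fun x => h x ^ 2) μ := h2r.integrable_sq
  -- `∫ h² ≤ ε ‖h‖`
  have hkey : ∀ ε : ℝ, 0 < ε → ∫ x, h x ^ 2 ∂μ ≤ nq 2 (ann N ρ) h * ε := by
    intro ε hε
    obtain ⟨m, g, hg, happ⟩ := modes_approx hN hρ hρ1 he hA h2 hε
    set S : E N → ℝ := fun x => ∑ j ∈ Finset.range m, cyl N e (g j) (Pz N j) x with hS
    have hSmem : MemLp S 2 μ :=
      memLp_finsetSum _ fun j _ => cyl_memLp hρ e (hg j).continuous j _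
    have hd : MemLp (fun x => h x - S x) 2 μ := h2r.sub hSmem
    have hzero : ∫ x, h x * S x ∂μ = 0 := by
      have : (fun x => h x * S x)
          = fun x => ∑ j ∈ Finset.range m, h x * cyl N e (g j) (Pz N j) x := by
        funext x
        rw [hS, Finset.mul_sum]
      rw [this, integral_finsetSum]
      · apply Finset.sum_eq_zero
        intro j _
        exact horth j (g j) (hg j)
      · intro j _
        exact h2r.integrable_mul (cyl_memLp hρ e (hg j).continuous j 2)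
    have hi1 : Integrable (fun x => h x * S x) μ := h2r.integrable_mul hSmem
    have hi2 : Integrable (fun x => h x * (h x - S x)) μ := h2r.integrable_mul hd
    have heq : ∫ x, h x ^ 2 ∂μ = ∫ x, h x * (h x - S x) ∂μ := by
      have : ∫ x, h x ^ 2 ∂μ = ∫ x, h x * (h x - S x) ∂μ + ∫ x, h x * S x ∂μ := by
        rw [← integral_add hi2 hi1]
        congr 1
        funext x
        ring
      rw [this, hzero, add_zero]
    rw [heq]
    have hcs : ∫ x, h x * (h x - S x) ∂μ ≤ (eLpNorm h 2 μ).toReal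
        * (eLpNorm (fun x => h x - S x) 2 μ).toReal := by
      have h3 : ∫ x, h x * (h x - S x) ∂μ ≤ ‖∫ x, h x * (h x - S x) ∂μ‖ :=
        Real.le_norm_self _
      have h4 : ‖∫ x, h x * (h x - S x) ∂μ‖
          ≤ (eLpNorm (fun x => h x * (h x - S x)) 1 μ).toReal := by
        rw [eLpNorm_one_eq_lintegral_enorm, ← integral_norm_eq_lintegral_enorm hi2.1]
        exact norm_integral_le_integral_norm _
      have h5 : eLpNorm (fun x => h x * (h x - S x)) 1 μ
          ≤ eLpNorm h 2 μ * eLpNorm (fun x => h x - S x) 2 μ := by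
        have := eLpNorm_smul_le_mul_eLpNorm (p := 2) (q := 2) (r := 1)
          hd.aestronglyMeasurable h2r.aestronglyMeasurable
        exact this
      refine h3.trans (h4.trans ?_)
      rw [← ENNReal.toReal_mul]
      exact ENNReal.toReal_mono (ENNReal.mul_ne_top h2r.eLpNorm_ne_top hd.eLpNorm_ne_top) h5
    refine hcs.trans ?_
    have e2 : (ENNReal.ofReal 2) = 2 := by simp
    unfold nq at happ ⊢
    rw [e2] at happ ⊢
    exact mul_le_mul_of_nonneg_left happ ENNReal.toReal_nonneg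
  have hle : ∫ x, h x ^ 2 ∂μ ≤ 0 := by
    by_contra hcon
    push Not at hcon
    have hn0 : 0 ≤ nq 2 (ann N ρ) h := ENNReal.toReal_nonneg
    have := hkey ((∫ x, h x ^ 2 ∂μ) / (2 * (nq 2 (ann N ρ) h + 1))) (by positivity)
    set I := ∫ x, h x ^ 2 ∂μ
    set n := nq 2 (ann N ρ) h
    have h9 : n * (I / (2 * (n + 1))) = (n / (n + 1)) * (I / 2) := by field_simp
    rw [h9] at this
    have h10 : n / (n + 1) ≤ 1 := (div_le_one (by linarith)).2 (by linarith)
    nlinarith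
  have hzero : ∫ x, h x ^ 2 ∂μ = 0 := le_antisymm hle (integral_nonneg fun x => sq_nonneg _)
  rw [integral_eq_zero_iff_of_nonneg (fun x => sq_nonneg _) hsq] at hzero
  have h11 : ∀ᵐ x ∂μ, h x = 0 := by
    filter_upwards [hzero] with x hx
    simpa using hx
  rwa [hμ, ae_restrict_iff' (isOpen_ann' N ρ).measurableSet] at h11

end Pool.Agent.helper13.BN
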